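import Pool.Agent.W558.WA.Stms
import Pool.Agent.W499.WD.Inv

set_option autoImplicit false
set_option linter.unusedVariables false
set_option linter.unusedSectionVars false

universe u

namespace Pool.Agent.W924.WAU

open Pool.Agent.W558 Pool.Agent.W499.WD

variable {k E : Type u} [Field k] [Field E] [Algebra k E] {O : Subalgebra k E} {x y z w : E}

/-- Uniqueness of the order. -/
lemma rs_uniq {b : Set E} {u v X f : E} {c c' : ℕ} (hv : v ∈ O)
    (h1 : Rs O b u v X f c) (h2 : Rs O b u v X f c') : c = c' := by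
  have key : ∀ c c', Rs O b u v X f c → Rs O b u v X f c' → c' ≤ c := by
    intro c c' h1 h2
    by_contra hlt
    push Not at hlt
    obtain ⟨θ, hθ, h3⟩ := h1.2
    exact h3 (Ox_mono hv hlt (h2.1 θ hθ))
  exact le_antisymm (key _ _ h2 h1) (key _ _ h1 h2)

lemma pow_unit {x' : E} (h : x' ∈ uo O x) (m : ℕ) :
    ∃ v ∈ O, v⁻¹ ∈ O ∧ v ≠ 0 ∧ x' ^ m = v * x ^ m := by
  have := mono_unit h (m : ℤ)
  simpa using this

lemma rs_change (hloc : ∀ x y, NU O x → NU O y → NU O (x + y)) {b : Set E} {x' y' X X' f : E}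
    {c : ℕ} (h : Par O x y) (h' : Par O x' y') (hx : x' ∈ uo O x)
    (hX : ∃ u ∈ O, u⁻¹ ∈ O ∧ u ≠ 0 ∧ X' = u * X) (hD : Rs O b x y X f c) :
    Rs O b x' y' X' f c := by
  obtain ⟨a, ha, v, hv, hvi, hv0, h1⟩ := par_change hloc h h' hx
  obtain ⟨a', ha', v', hv', hvi', hv0', h1'⟩ := par_change hloc h' h (uo_symm hx)
  obtain ⟨u, hu, hui, hu0, h2⟩ := hX
  refine ⟨fun θ hθ => ?_, ?_⟩
  · have h3 := Ox_change (uo_symm hx) hv' hvi' hv0' h'.pu.mem h'.pv.mem ha' h1' (hD.1 θ hθ)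
    rw [h2, show θ f * (u * X) = u * (θ f * X) by ring]
    exact Ox_mul hu h3
  · obtain ⟨θ, hθ, h3⟩ := hD.2
    refine ⟨θ, hθ, fun h4 => h3 ?_⟩
    have h5 := Ox_change hx hv hvi hv0 h.pu.mem h.pv.mem ha h1 h4
    rw [h2] at h5
    have h6 := Ox_mul hui h5
    rwa [show u⁻¹ * (θ f * (u * X)) = θ f * X by field_simp] at h6

lemma rs_change2 {b : Set E} {x' y' X X' f : E} {c : ℕ} (hxO : x ∈ O) (hyO : y ∈ O)
    (hx : x' ∈ uo O x) (hy : y' ∈ uo O y)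
    (hX : ∃ u ∈ O, u⁻¹ ∈ O ∧ u ≠ 0 ∧ X' = u * X) (hD : Rs O b x y X f c) :
    Rs O b x' y' X' f c := by
  obtain ⟨u, hu, hui, hu0, h2⟩ := hX
  have hx' := uo_mem hxO hx
  have hy' := uo_mem hyO hy
  refine ⟨fun θ hθ => ?_, ?_⟩
  · rw [h2, show θ f * (u * X) = u * (θ f * X) by ring]
    exact Ox_mul hu (Ox_change2 (uo_symm hx) (uo_symm hy) hx' hy' (hD.1 θ hθ))
  · obtain ⟨θ, hθ, h3⟩ := hD.2
    refine ⟨θ, hθ, fun h4 => h3 ?_⟩
    have h5 := Ox_change2 hx hy hxO hyO h4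
    rw [h2] at h5
    have h6 := Ox_mul hui h5
    rwa [show u⁻¹ * (θ f * (u * X)) = θ f * X by field_simp] at h6

lemma self_mem_uo : x ∈ uo O x :=
  ⟨1, O.one_mem, one_ne_zero, by rw [inv_one]; exact O.one_mem, by rw [one_mul]⟩

lemma ga_of_zero {p : ℕ} {b : Set E} {f a X : E} (h : Par O x y)
    (hX : X ∈ Submonoid.closure b) (h1 : (f - (a ^ p - a)) * X ∈ O)
    (h2 : Rs O b x y X (f - (a ^ p - a)) 0) : GA p O b f := by
  refine ⟨a, X, hX, h1, Or.inr ?_⟩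
  obtain ⟨θ, hθ, h3⟩ := h2.2
  refine ⟨θ, hθ, Ox_mem h.pu.mem h.pv.mem (h2.1 θ hθ), fun h5 => h3 ?_⟩
  obtain ⟨α, hα, β, hβ, h6⟩ := h.gen _ h5
  exact ⟨α, hα, β, hβ, by rw [zero_add, pow_one]; exact h6⟩

theorem main (hri : WA_ri.{u}) : WA_u.{u} := by
  intro p _ k E _ _ _ _ _ htr O x y f hpt h
  obtain ⟨r1, r2, r3, r4⟩ := hri p k E htr O x y f hpt h
  obtain ⟨A, hA, hpt'⟩ := hpt
  have hloc := hpt'.loc
  have hx := h.pu.mem
  have hy := h.pv.mem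
  refine ⟨?_, ?_, ?_, ?_, ?_, ?_, ?_⟩
  · intro N c N' c' h1 h2
    obtain ⟨a, ha, hR⟩ := h1
    obtain ⟨a', ha', hR'⟩ := h2
    have e1 : N = N' := le_antisymm (r3 N c ⟨a, ha, hR⟩ a' N' ha') (r3 N' c' ⟨a', ha', hR'⟩ a N ha)
    subst e1
    exact ⟨rfl, fun hN => rs_uniq hy (hR hN) (r1 N c' ⟨a', ha', hR'⟩ a ha hN)⟩
  · intro N M c d N' M' c' d' h1 h2
    obtain ⟨a, ha, hR, hS⟩ := h1
    obtain ⟨a', ha', hR', hS'⟩ := h2
    have e1 := r4 N M c d ⟨a, ha, hR, hS⟩ a' N' M' ha'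
    have e2 := r4 N' M' c' d' ⟨a', ha', hR', hS'⟩ a N M ha
    have e3 : N = N' := le_antisymm e1.1 e2.1
    have e4 : M = M' := le_antisymm e1.2 e2.2
    subst e3 e4
    have h3 := r2 N M c' d' ⟨a', ha', hR', hS'⟩ a ha
    exact ⟨rfl, rfl, fun hN => rs_uniq hy (hR hN) (h3.1 hN),
      fun hM => rs_uniq hx (hS hM) (h3.2 hM)⟩
  · intro x' y' N c hx' h' hD
    obtain ⟨a, ha, hR⟩ := hD
    obtain ⟨u, hu, hui, hu0, h2⟩ := pow_unit hx' N
    refine ⟨a, ?_, fun hN => ?_⟩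
    · rw [h2, show (f - (a ^ p - a)) * (u * x ^ N) = u * ((f - (a ^ p - a)) * x ^ N) by ring]
      exact O.mul_mem hu ha
    · rw [uo_eq hx']
      exact rs_change hloc h h' hx' ⟨u, hu, hui, hu0, h2⟩ (hR hN)
  · intro x' y' N M c d hx' hy' hD
    obtain ⟨a, ha, hR, hS⟩ := hD
    obtain ⟨u, hu, hui, hu0, h2⟩ := pow_unit hx' N
    obtain ⟨v, hv, hvi, hv0, h3⟩ := pow_unit hy' M
    have hX : ∃ w ∈ O, w⁻¹ ∈ O ∧ w ≠ 0 ∧ x' ^ N * y' ^ M = w * (x ^ N * y ^ M) := by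
      refine ⟨u * v, O.mul_mem hu hv, ?_, mul_ne_zero hu0 hv0, by rw [h2, h3]; ring⟩
      rw [mul_inv]
      exact O.mul_mem hui hvi
    refine ⟨a, ?_, fun hN => ?_, fun hM => ?_⟩
    · obtain ⟨w, hw, _, _, h4⟩ := hX
      rw [h4, show (f - (a ^ p - a)) * (w * (x ^ N * y ^ M)) =
        w * ((f - (a ^ p - a)) * (x ^ N * y ^ M)) by ring]
      exact O.mul_mem hw ha
    · rw [uo_eq hx', uo_eq hy']
      exact rs_change2 hx hy hx' hy' hX (hR hN)
    · rw [uo_eq hx', uo_eq hy']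
      exact rs_change2 hy hx hy' hx' hX (hS hM)
  · intro N M c d hD
    obtain ⟨a, ha, hR, hS⟩ := hD
    have e : y ^ M * x ^ N = x ^ N * y ^ M := mul_comm _ _
    refine ⟨a, ?_, fun hM => ?_, fun hN => ?_⟩
    · rw [e]; exact ha
    · rw [e, Set.union_comm]; exact hS hM
    · rw [e, Set.union_comm]; exact hR hN
  · intro N c hD h0
    obtain ⟨a, ha, hR⟩ := hD
    by_cases hN : N = 0
    · subst hN
      refine ⟨a, 1, Submonoid.one_mem _, ?_, Or.inl ?_⟩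
      · simpa using ha
      · simpa using ha
    · have hc := h0.resolve_left hN
      subst hc
      exact ga_of_zero h (Submonoid.pow_mem _ (Submonoid.subset_closure self_mem_uo) N) ha
        (hR (by omega))
  · intro N M c d hD h0
    obtain ⟨a, ha, hR, hS⟩ := hD
    have hX : x ^ N * y ^ M ∈ Submonoid.closure (uo O x ∪ uo O y) :=
      Submonoid.mul_mem _
        (Submonoid.pow_mem _ (Submonoid.subset_closure (Set.mem_union_left _ self_mem_uo)) N)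
        (Submonoid.pow_mem _ (Submonoid.subset_closure (Set.mem_union_right _ self_mem_uo)) M)
    rcases h0 with ⟨hN, hM⟩ | ⟨hN, hc⟩ | ⟨hM, hd⟩
    · subst hN hM
      refine ⟨a, 1, Submonoid.one_mem _, ?_, Or.inl ?_⟩
      · simpa using ha
      · simpa using ha
    · subst hc
      exact ga_of_zero h hX ha (hR hN)
    · subst hd
      exact ga_of_zero (Par_symm h) hX ha (hS hM)

end Pool.Agent.W924.WAU
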